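import Mathlib

set_option autoImplicit false

/-!
# Uniform comparison of Gagliardo seminorms of different orders (MP_95ea62_an)

Let `G(h) = ∫ |f(x+h) - f(x)|^p dx`. Then `G(2h) ≤ 2^p G(h)`, so the numbers `2^{jp} G(2^{-j} h)` increase
with `j`, and for an increasing sequence `c_j ≥ 0` the quantity `(1 - x) ∑ c_j x^j` is an increasing
function of `x ∈ (0,1)`. Decomposing the unit ball in dyadic annuli this gives
`(1 - 2^{-(1-s)p}) ∫_{|h|<1} G(h) |h|^{-N-sp} dh ≤ (1 - 2^{-(1-t)p}) ∫_{|h|<1} G(h) |h|^{-N-tp} dh`.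
-/

open MeasureTheory Filter Topology ENNReal

namespace Pool.Agent.Results.MP_95ea62_an.UniformComparison

/-! ### Increasing sequences -/

lemma tsum_increments (c : ℕ → ℝ≥0∞) (hc : Monotone c) :
    ∃ γ : ℕ → ℝ≥0∞, (∀ j, c j = ∑ i ∈ Finset.range (j + 1), γ i) := by
  refine ⟨fun i => Nat.casesOn i (c 0) (fun j => c (j + 1) - c j), ?_⟩
  intro j
  induction j with
  | zero => simp
  | succ j ih =>
    rw [Finset.sum_range_succ, ← ih]
    change c (j + 1) = c j + (c (j + 1) - c j)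
    rw [add_tsub_cancel_of_le (hc (Nat.le_succ j))]

lemma tsum_formula (c γ : ℕ → ℝ≥0∞) (h : ∀ j, c j = ∑ i ∈ Finset.range (j + 1), γ i)
    (X : ℝ≥0∞) (hX : X < 1) :
    (1 - X) * ∑' j, c j * X ^ j = ∑' i, γ i * X ^ i := by
  have h1 : ∑' j, c j * X ^ j = ∑' j, ∑' i, (if i ≤ j then γ i * X ^ j else 0) := by
    apply tsum_congr
    intro j
    rw [h j, Finset.sum_mul, tsum_eq_sum (s := Finset.range (j + 1))]
    · apply Finset.sum_congr rfl
      intro i hi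
      rw [if_pos (by have := Finset.mem_range.1 hi; omega)]
    · intro i hi
      rw [if_neg (by rw [Finset.mem_range] at hi; omega)]
  rw [h1, ENNReal.tsum_comm, ← ENNReal.tsum_mul_left]
  apply tsum_congr
  intro i
  have h2 : ∑' j, (if i ≤ j then γ i * X ^ j else 0) = γ i * X ^ i * ∑' l, X ^ l := by
    rw [← ENNReal.tsum_mul_left, ← Summable.sum_add_tsum_nat_add' (k := i) ENNReal.summable]
    rw [Finset.sum_eq_zero, zero_add]
    · apply tsum_congr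
      intro l
      rw [if_pos (by omega), pow_add]; ring
    · intro j hj
      rw [if_neg (by have := Finset.mem_range.1 hj; omega)]
  rw [h2, ENNReal.tsum_geometric]
  have h3 : (1 - X) ≠ 0 := by
    rw [Ne, tsub_eq_zero_iff_le]; exact not_le.2 hX
  have h4 : (1 - X) ≠ ⊤ := ne_top_of_le_ne_top one_ne_top tsub_le_self
  calc (1 - X) * (γ i * X ^ i * (1 - X)⁻¹) = γ i * X ^ i * ((1 - X) * (1 - X)⁻¹) := by ring
    _ = γ i * X ^ i := by rw [ENNReal.mul_inv_cancel h3 h4, mul_one]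

/-- For an increasing sequence `c`, `(1 - X) ∑ c_j X^j` increases with `X < 1`. -/
lemma abel_mono (c : ℕ → ℝ≥0∞) (hc : Monotone c) (X Y : ℝ≥0∞) (hXY : X ≤ Y) (hY : Y < 1) :
    (1 - X) * ∑' j, c j * X ^ j ≤ (1 - Y) * ∑' j, c j * Y ^ j := by
  obtain ⟨γ, hγ⟩ := tsum_increments c hc
  rw [tsum_formula c γ hγ X (hXY.trans_lt hY), tsum_formula c γ hγ Y hY]
  exact ENNReal.tsum_le_tsum (fun i => mul_le_mul_right (pow_le_pow_left₀ (zero_le) hXY i) _)

section Main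

variable {E : Type*} [NormedAddCommGroup E] [NormedSpace ℝ E] [FiniteDimensional ℝ E]
  [MeasurableSpace E] [BorelSpace E] (μ : Measure E) [μ.IsAddHaarMeasure]
  {F : Type*} [NormedAddCommGroup F] [MeasurableSpace F] [BorelSpace F]
  [SecondCountableTopology F]

/-- `G(h) = ∫ |f(x+h) - f(x)|^p dx` -/
noncomputable def G (p : ℝ) (f : E → F) (h : E) : ℝ≥0∞ := ∫⁻ x, ‖f (x + h) - f x‖ₑ ^ p ∂μ

lemma G_double (p : ℝ) (hp : 1 ≤ p) (f : E → F) (hf : Measurable f) (h : E) :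
    G μ p f ((2 : ℝ) • h) ≤ 2 ^ p * G μ p f h := by
  have h1 : G μ p f ((2 : ℝ) • h) ≤
      ∫⁻ x, 2 ^ (p - 1) * (‖f (x + h + h) - f (x + h)‖ₑ ^ p + ‖f (x + h) - f x‖ₑ ^ p) ∂μ := by
    apply lintegral_mono
    intro x
    simp only
    refine le_trans ?_ (ENNReal.rpow_add_le_mul_rpow_add_rpow _ _ hp)
    apply ENNReal.rpow_le_rpow _ (by linarith)
    have : f (x + (2 : ℝ) • h) - f x = (f (x + h + h) - f (x + h)) + (f (x + h) - f x) := by
      rw [two_smul, ← add_assoc]; abel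
    rw [this]
    exact enorm_add_le _ _
  refine h1.trans ?_
  rw [lintegral_const_mul, lintegral_add_left]
  · have h2 : ∫⁻ x, ‖f (x + h + h) - f (x + h)‖ₑ ^ p ∂μ = G μ p f h :=
      lintegral_add_right_eq_self (fun x => ‖f (x + h) - f x‖ₑ ^ p) h
    rw [h2]
    change 2 ^ (p - 1) * (G μ p f h + G μ p f h) ≤ _
    rw [← two_mul, ← mul_assoc]
    apply le_of_eq
    congr 1
    rw [ENNReal.rpow_sub _ _ two_ne_zero ofNat_ne_top, ENNReal.rpow_one,
      ENNReal.div_mul_cancel two_ne_zero ofNat_ne_top]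
  · fun_prop
  · fun_prop

lemma G_le (p : ℝ) (hp : 1 ≤ p) (f : E → F) (hf : Measurable f) (h : E) :
    G μ p f h ≤ 2 ^ p * ∫⁻ x, ‖f x‖ₑ ^ p ∂μ := by
  have h1 : G μ p f h ≤ ∫⁻ x, 2 ^ (p - 1) * (‖f (x + h)‖ₑ ^ p + ‖f x‖ₑ ^ p) ∂μ := by
    apply lintegral_mono
    intro x
    simp only
    refine le_trans ?_ (ENNReal.rpow_add_le_mul_rpow_add_rpow _ _ hp)
    apply ENNReal.rpow_le_rpow _ (by linarith)
    exact enorm_sub_le
  refine h1.trans ?_
  rw [lintegral_const_mul, lintegral_add_left]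
  · have h2 : ∫⁻ x, ‖f (x + h)‖ₑ ^ p ∂μ = ∫⁻ x, ‖f x‖ₑ ^ p ∂μ :=
      lintegral_add_right_eq_self (fun x => ‖f x‖ₑ ^ p) h
    rw [h2, ← two_mul, ← mul_assoc]
    apply le_of_eq
    congr 1
    rw [ENNReal.rpow_sub _ _ two_ne_zero ofNat_ne_top, ENNReal.rpow_one,
      ENNReal.div_mul_cancel two_ne_zero ofNat_ne_top]
  · fun_prop
  · fun_prop

lemma measurable_G (p : ℝ) (f : E → F) (hf : Measurable f) : Measurable (G μ p f) := by
  unfold G
  apply Measurable.lintegral_prod_right' (f := fun q : E × E => ‖f (q.2 + q.1) - f q.2‖ₑ ^ p)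
  fun_prop

/-- the double integral as an integral of `G` -/
lemma double_eq (p r : ℝ) (f : E → F) (hf : Measurable f) :
    ∫⁻ x, ∫⁻ y, ‖f x - f y‖ₑ ^ p / ‖x - y‖ₑ ^ r ∂μ ∂μ = ∫⁻ h, G μ p f h * ‖h‖ₑ ^ (-r) ∂μ := by
  have h1 : ∀ x, ∫⁻ y, ‖f x - f y‖ₑ ^ p / ‖x - y‖ₑ ^ r ∂μ =
      ∫⁻ h, ‖f (x + h) - f x‖ₑ ^ p * ‖h‖ₑ ^ (-r) ∂μ := by
    intro x
    rw [← lintegral_add_left_eq_self (fun y => ‖f x - f y‖ₑ ^ p / ‖x - y‖ₑ ^ r) x]
    apply lintegral_congr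
    intro h
    rw [sub_add_cancel_left, enorm_neg, ENNReal.rpow_neg, ← enorm_neg, neg_sub]
    rfl
  simp_rw [h1]
  rw [lintegral_lintegral_swap]
  · apply lintegral_congr
    intro h
    rw [lintegral_mul_const]
    · rfl
    · fun_prop
  · apply Measurable.aemeasurable
    fun_prop

/-! ### Dyadic annuli -/

/-- dyadic annulus -/
def Ann (E : Type*) [NormedAddCommGroup E] (j : ℕ) : Set E :=
  {h | (1 / 2 : ℝ) ^ (j + 1) < ‖h‖ ∧ ‖h‖ ≤ (1 / 2 : ℝ) ^ j}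

omit [NormedSpace ℝ E] [FiniteDimensional ℝ E] in
lemma measurableSet_Ann (j : ℕ) : MeasurableSet (Ann E j) :=
  (measurableSet_lt measurable_const measurable_norm).inter
    (measurableSet_le measurable_norm measurable_const)

lemma iUnion_Ann (E : Type*) [NormedAddCommGroup E] :
    ⋃ j, Ann E j = {h : E | 0 < ‖h‖ ∧ ‖h‖ ≤ 1} := by
  ext h
  simp only [Set.mem_iUnion, Ann, Set.mem_ofPred_eq]
  constructor
  · rintro ⟨j, h1, h2⟩
    exact ⟨lt_trans (by positivity) h1, h2.trans (pow_le_one₀ (by norm_num) (by norm_num))⟩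
  · rintro ⟨h1, h2⟩
    obtain ⟨n, hn1, hn2⟩ := exists_nat_pow_near_of_lt_one h1 h2 (by norm_num : (0:ℝ) < 1 / 2)
      (by norm_num)
    exact ⟨n, hn1, hn2⟩

lemma disjoint_Ann (E : Type*) [NormedAddCommGroup E] : Pairwise (Function.onFun Disjoint (Ann E)) := by
  have key : ∀ i j : ℕ, i < j → Disjoint (Ann E i) (Ann E j) := by
    intro i j hij
    rw [Set.disjoint_left]
    rintro h ⟨h1, -⟩ ⟨-, h2⟩
    have : (1 / 2 : ℝ) ^ j ≤ (1 / 2 : ℝ) ^ (i + 1) :=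
      pow_le_pow_of_le_one (by norm_num) (by norm_num) hij
    linarith
  intro i j hij
  rcases lt_or_gt_of_ne hij with h | h
  · exact key i j h
  · exact (key j i h).symm

lemma lintegral_Ann (Φ : E → ℝ≥0∞) (hΦ : Measurable Φ) (j : ℕ) :
    ∫⁻ h in Ann E j, Φ h ∂μ = ENNReal.ofReal (((1 / 2 : ℝ) ^ j) ^ Module.finrank ℝ E) *
      ∫⁻ k in Ann E 0, Φ ((1 / 2 : ℝ) ^ j • k) ∂μ := by
  set r : ℝ := (1 / 2 : ℝ) ^ j with hr
  have hr0 : 0 < r := by positivity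
  have h1 : ∫⁻ k in Ann E 0, Φ (r • k) ∂μ = ∫⁻ k, (Ann E j).indicator Φ (r • k) ∂μ := by
    rw [← lintegral_indicator (measurableSet_Ann 0)]
    apply lintegral_congr
    intro k
    have hiff : k ∈ Ann E 0 ↔ r • k ∈ Ann E j := by
      simp only [Ann, Set.mem_ofPred_eq, norm_smul, Real.norm_eq_abs, abs_of_pos hr0]
      rw [pow_succ, pow_succ, ← hr, pow_zero, one_mul]
      constructor
      · rintro ⟨h1, h2⟩
        exact ⟨by nlinarith, by nlinarith⟩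
      · rintro ⟨h1, h2⟩
        exact ⟨lt_of_mul_lt_mul_left h1 hr0.le,
          le_of_mul_le_mul_left (by rw [mul_one]; exact h2) hr0⟩
    by_cases hk : k ∈ Ann E 0
    · rw [Set.indicator_of_mem hk, Set.indicator_of_mem (hiff.1 hk)]
    · rw [Set.indicator_of_notMem hk, Set.indicator_of_notMem (fun h => hk (hiff.2 h))]
  have h2 : ∫⁻ k, (Ann E j).indicator Φ (r • k) ∂μ =
      ENNReal.ofReal |(r ^ Module.finrank ℝ E)⁻¹| * ∫⁻ h in Ann E j, Φ h ∂μ := by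
    rw [← lintegral_map (hΦ.indicator (measurableSet_Ann j)) (measurable_const_smul r),
      Measure.map_addHaar_smul μ hr0.ne', lintegral_smul_measure,
      lintegral_indicator (measurableSet_Ann j)]
    rfl
  rw [h1, h2, ← mul_assoc, ← ENNReal.ofReal_mul (by positivity), abs_of_pos (by positivity),
    mul_inv_cancel₀ (by positivity), ENNReal.ofReal_one, one_mul]

/-- the part of the integral over the unit ball -/
noncomputable def Sm (p : ℝ) (f : E → F) (s : ℝ) : ℝ≥0∞ :=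
  ∫⁻ h in {h : E | 0 < ‖h‖ ∧ ‖h‖ ≤ 1}, G μ p f h * ‖h‖ₑ ^ (-((Module.finrank ℝ E : ℝ) + s * p)) ∂μ

/-- `2^{-(1-s)p}` -/
noncomputable def XX (p s : ℝ) : ℝ≥0∞ := 2 ^ (-((1 - s) * p))

/-- the increasing sequence `2^{jp} G(2^{-j} k)` -/
noncomputable def cc (p : ℝ) (f : E → F) (k : E) (j : ℕ) : ℝ≥0∞ :=
  ((2 : ℝ≥0∞) ^ p) ^ j * G μ p f ((1 / 2 : ℝ) ^ j • k)

lemma cc_mono (p : ℝ) (hp : 1 ≤ p) (f : E → F) (hf : Measurable f) (k : E) :
    Monotone (cc μ p f k) := by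
  apply monotone_nat_of_le_succ
  intro j
  unfold cc
  have h := G_double μ p hp f hf ((1 / 2 : ℝ) ^ (j + 1) • k)
  have h2 : (2 : ℝ) • ((1 / 2 : ℝ) ^ (j + 1) • k) = (1 / 2 : ℝ) ^ j • k := by
    rw [smul_smul, pow_succ]
    congr 1
    ring
  rw [h2] at h
  calc ((2 : ℝ≥0∞) ^ p) ^ j * G μ p f ((1 / 2 : ℝ) ^ j • k)
      ≤ ((2 : ℝ≥0∞) ^ p) ^ j * (2 ^ p * G μ p f ((1 / 2 : ℝ) ^ (j + 1) • k)) :=
        mul_le_mul_right h _
    _ = _ := by rw [pow_succ]; ring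

lemma Sm_eq (p : ℝ) (f : E → F) (hf : Measurable f) (s : ℝ) :
    Sm μ p f s = ∫⁻ k in Ann E 0, ‖k‖ₑ ^ (-((Module.finrank ℝ E : ℝ) + s * p)) *
      ∑' j, cc μ p f k j * XX p s ^ j ∂μ := by
  set n : ℕ := Module.finrank ℝ E with hn
  have hmeas : Measurable (fun h : E => G μ p f h * ‖h‖ₑ ^ (-((n : ℝ) + s * p))) := by
    have := measurable_G μ p f hf
    fun_prop
  unfold Sm
  rw [← iUnion_Ann E, lintegral_iUnion (fun j => measurableSet_Ann j) (disjoint_Ann E)]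
  simp_rw [← ENNReal.tsum_mul_left]
  rw [lintegral_tsum]
  · apply tsum_congr
    intro j
    rw [lintegral_Ann μ _ hmeas j, ← lintegral_const_mul]
    · apply setLIntegral_congr_fun (measurableSet_Ann 0)
      intro k hk
      simp only
      have hk0 : 0 < ‖k‖ := lt_trans (by positivity) hk.1
      have hke : ‖k‖ₑ ≠ 0 := by
        rw [Ne, enorm_eq_zero]; exact norm_pos_iff.1 hk0
      have hket : ‖k‖ₑ ≠ ⊤ := enorm_ne_top
      unfold cc XX
      rw [enorm_smul]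
      have e0 : ‖(1 / 2 : ℝ) ^ j‖ₑ = (2 : ℝ≥0∞)⁻¹ ^ j := by
        rw [enorm_pow, Real.enorm_eq_ofReal (by norm_num), one_div,
          ENNReal.ofReal_inv_of_pos (by norm_num)]
        norm_num
      have e1 : ENNReal.ofReal (((1 / 2 : ℝ) ^ j) ^ n) = ((2 : ℝ≥0∞)⁻¹ ^ j) ^ n := by
        rw [ENNReal.ofReal_pow (by positivity), ENNReal.ofReal_pow (by positivity), one_div,
          ENNReal.ofReal_inv_of_pos (by norm_num)]
        norm_num
      have e2 : ((2 : ℝ≥0∞)⁻¹ ^ j * ‖k‖ₑ) ^ (-((n : ℝ) + s * p)) =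
          ((2 : ℝ≥0∞)⁻¹ ^ j) ^ (-((n : ℝ) + s * p)) * ‖k‖ₑ ^ (-((n : ℝ) + s * p)) := by
        apply ENNReal.mul_rpow_of_ne_zero
        · exact pow_ne_zero _ (by simp)
        · exact hke
      have e3 : ∀ z : ℝ, ((2 : ℝ≥0∞)⁻¹ ^ j) ^ z = (2 : ℝ≥0∞) ^ (-(j : ℝ) * z) := by
        intro z
        rw [← ENNReal.rpow_natCast, ← ENNReal.rpow_neg_one, ← ENNReal.rpow_mul, ← ENNReal.rpow_mul]
        congr 1; ring
      have e4 : ((2 : ℝ≥0∞)⁻¹ ^ j) ^ n = (2 : ℝ≥0∞) ^ (-(j : ℝ) * n) := by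
        rw [← e3, ENNReal.rpow_natCast]
      have e5 : ((2 : ℝ≥0∞) ^ p) ^ j = (2 : ℝ≥0∞) ^ (p * j) := by
        rw [← ENNReal.rpow_natCast, ← ENNReal.rpow_mul]
      have e6 : ((2 : ℝ≥0∞) ^ (-((1 - s) * p))) ^ j = (2 : ℝ≥0∞) ^ (-((1 - s) * p) * j) := by
        rw [← ENNReal.rpow_natCast, ← ENNReal.rpow_mul]
      rw [e0, e1, e2, e3, e4, e5, e6]
      have e7 : (2 : ℝ≥0∞) ^ (-(j : ℝ) * n) * 2 ^ (-(j : ℝ) * -((n : ℝ) + s * p)) =
          2 ^ (p * j) * 2 ^ (-((1 - s) * p) * j) := by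
        rw [← ENNReal.rpow_add _ _ two_ne_zero ofNat_ne_top,
          ← ENNReal.rpow_add _ _ two_ne_zero ofNat_ne_top]
        congr 1; ring
      calc (2 : ℝ≥0∞) ^ (-(j : ℝ) * n) * (G μ p f ((1 / 2 : ℝ) ^ j • k) *
            (2 ^ (-(j : ℝ) * -((n : ℝ) + s * p)) * ‖k‖ₑ ^ (-((n : ℝ) + s * p))))
          = ((2 : ℝ≥0∞) ^ (-(j : ℝ) * n) * 2 ^ (-(j : ℝ) * -((n : ℝ) + s * p))) *
            (G μ p f ((1 / 2 : ℝ) ^ j • k) * ‖k‖ₑ ^ (-((n : ℝ) + s * p))) := by ring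
        _ = _ := by rw [e7]; ring
    · exact hmeas.comp (measurable_const_smul _)
  · intro j
    apply Measurable.aemeasurable
    unfold cc
    have h1 : Measurable (fun k : E => G μ p f ((1 / 2 : ℝ) ^ j • k)) :=
      (measurable_G μ p f hf).comp (measurable_const_smul _)
    fun_prop

/-- **Comparison of the parts over the unit ball.** -/
lemma Sm_le (p : ℝ) (hp : 1 ≤ p) (f : E → F) (hf : Measurable f) (s t : ℝ) (hst : s ≤ t)
    (ht : t < 1) :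
    (1 - XX p s) * Sm μ p f s ≤ (1 - XX p t) * Sm μ p f t := by
  rw [Sm_eq μ p f hf s, Sm_eq μ p f hf t]
  have hmc : ∀ j, Measurable (fun k => cc μ p f k j) := by
    intro j
    unfold cc
    have h1 : Measurable (fun k : E => G μ p f ((1 / 2 : ℝ) ^ j • k)) :=
      (measurable_G μ p f hf).comp (measurable_const_smul _)
    fun_prop
  have hms : ∀ s, Measurable (fun k : E => ‖k‖ₑ ^ (-((Module.finrank ℝ E : ℝ) + s * p)) *
      ∑' j, cc μ p f k j * XX p s ^ j) := by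
    intro s
    apply Measurable.mul (by fun_prop)
    apply Measurable.tsum
    intro j
    exact (hmc j).mul_const _
  rw [← lintegral_const_mul _ (hms s), ← lintegral_const_mul _ (hms t)]
  apply setLIntegral_mono' (measurableSet_Ann 0)
  intro k hk
  have hk1 : ‖k‖ₑ ≤ 1 := by
    have h1 : ‖k‖ ≤ 1 := by simpa using hk.2
    rw [← ofReal_norm]
    exact ENNReal.ofReal_le_one.2 h1
  have hX : XX p s ≤ XX p t := by
    unfold XX
    apply ENNReal.rpow_le_rpow_of_exponent_le (by norm_num)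
    nlinarith
  have hY : XX p t < 1 := by
    unfold XX
    apply ENNReal.rpow_lt_one_of_one_lt_of_neg (by norm_num)
    nlinarith
  have h1 := abel_mono (cc μ p f k) (cc_mono μ p hp f hf k) _ _ hX hY
  have h2 : ‖k‖ₑ ^ (-((Module.finrank ℝ E : ℝ) + s * p)) ≤
      ‖k‖ₑ ^ (-((Module.finrank ℝ E : ℝ) + t * p)) := by
    apply ENNReal.rpow_le_rpow_of_exponent_ge hk1
    nlinarith
  calc (1 - XX p s) * (‖k‖ₑ ^ (-((Module.finrank ℝ E : ℝ) + s * p)) *
        ∑' j, cc μ p f k j * XX p s ^ j)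
      = ‖k‖ₑ ^ (-((Module.finrank ℝ E : ℝ) + s * p)) *
        ((1 - XX p s) * ∑' j, cc μ p f k j * XX p s ^ j) := by ring
    _ ≤ ‖k‖ₑ ^ (-((Module.finrank ℝ E : ℝ) + t * p)) *
        ((1 - XX p t) * ∑' j, cc μ p f k j * XX p t ^ j) := mul_le_mul' h2 h1
    _ = _ := by ring

/-! ### The complement of the unit ball -/

lemma G_zero (p : ℝ) (hp : 1 ≤ p) (f : E → F) : G μ p f 0 = 0 := by
  unfold G
  simp [ENNReal.zero_rpow_of_pos (by linarith : 0 < p)]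

lemma weight_le (p : ℝ) (hp : 1 ≤ p) (θ s : ℝ) (hθ : 0 < θ) (hs : θ < s) (hs1 : s < 1) (n : ℕ)
    (x : ℝ) (hx : 1 < x) :
    x ^ (-((n : ℝ) + s * p)) ≤ 2 ^ ((n : ℝ) + p) * (1 + x) ^ (-((n : ℝ) + θ * p)) := by
  have hx0 : 0 < x := by linarith
  have h1 : x ^ (-((n : ℝ) + s * p)) ≤ x ^ (-((n : ℝ) + θ * p)) := by
    apply Real.rpow_le_rpow_of_exponent_le hx.le
    nlinarith
  have h2 : x ^ (-((n : ℝ) + θ * p)) ≤ ((1 + x) / 2) ^ (-((n : ℝ) + θ * p)) := by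
    apply Real.rpow_le_rpow_of_nonpos (by positivity) (by linarith)
    have : 0 ≤ (n : ℝ) := Nat.cast_nonneg n
    nlinarith
  have h3 : ((1 + x) / 2) ^ (-((n : ℝ) + θ * p)) =
      2 ^ ((n : ℝ) + θ * p) * (1 + x) ^ (-((n : ℝ) + θ * p)) := by
    rw [Real.div_rpow (by positivity) (by norm_num), Real.rpow_neg (by norm_num : (0:ℝ) ≤ 2),
      div_inv_eq_mul, mul_comm]
  have h4 : (2 : ℝ) ^ ((n : ℝ) + θ * p) ≤ 2 ^ ((n : ℝ) + p) := by
    apply Real.rpow_le_rpow_of_exponent_le (by norm_num)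
    nlinarith
  calc x ^ (-((n : ℝ) + s * p)) ≤ 2 ^ ((n : ℝ) + θ * p) * (1 + x) ^ (-((n : ℝ) + θ * p)) := by
        rw [← h3]; exact h1.trans h2
    _ ≤ _ := mul_le_mul_of_nonneg_right h4 (by positivity)

/-- the full integral -/
noncomputable def KK (p : ℝ) (f : E → F) (s : ℝ) : ℝ≥0∞ :=
  ∫⁻ h, G μ p f h * ‖h‖ₑ ^ (-((Module.finrank ℝ E : ℝ) + s * p)) ∂μ

lemma KK_le (p : ℝ) (hp : 1 ≤ p) (θ s : ℝ) (hθ : 0 < θ) (hs : θ < s) (hs1 : s < 1) (f : E → F)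
    (hf : Measurable f) :
    KK μ p f s ≤ Sm μ p f s + (2 ^ p * ∫⁻ x, ‖f x‖ₑ ^ p ∂μ) *
      (ENNReal.ofReal (2 ^ ((Module.finrank ℝ E : ℝ) + p)) *
        ∫⁻ h : E, ENNReal.ofReal ((1 + ‖h‖) ^ (-((Module.finrank ℝ E : ℝ) + θ * p))) ∂μ) := by
  set n : ℕ := Module.finrank ℝ E with hn
  have hS : MeasurableSet {h : E | 0 < ‖h‖ ∧ ‖h‖ ≤ 1} :=
    (measurableSet_lt measurable_const measurable_norm).inter
      (measurableSet_le measurable_norm measurable_const)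
  unfold KK
  rw [← lintegral_add_compl _ hS]
  refine add_le_add le_rfl ?_
  have hM : ∀ h, G μ p f h ≤ 2 ^ p * ∫⁻ x, ‖f x‖ₑ ^ p ∂μ := G_le μ p hp f hf
  generalize (2 ^ p * ∫⁻ x, ‖f x‖ₑ ^ p ∂μ) = M at *
  rw [← lintegral_const_mul _ (by fun_prop), ← lintegral_const_mul _ (by fun_prop)]
  refine le_trans ?_ (setLIntegral_le_lintegral {h : E | 0 < ‖h‖ ∧ ‖h‖ ≤ 1}ᶜ _)
  apply setLIntegral_mono' hS.compl
  intro h hh
  by_cases h0 : h = 0
  · subst h0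
    rw [G_zero μ p hp, zero_mul]; exact zero_le
  · have hpos : 0 < ‖h‖ := norm_pos_iff.2 h0
    have h1 : 1 < ‖h‖ := by
      by_contra hcon
      exact hh ⟨hpos, not_lt.1 hcon⟩
    refine mul_le_mul' (hM h) ?_
    rw [← ofReal_norm, ENNReal.ofReal_rpow_of_pos hpos, ← ENNReal.ofReal_mul (by positivity)]
    exact ENNReal.ofReal_le_ofReal (weight_le p hp θ s hθ hs hs1 n _ h1)

lemma Sm_le_KK (p : ℝ) (f : E → F) (s : ℝ) : Sm μ p f s ≤ KK μ p f s :=
  setLIntegral_le_lintegral _ _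

/-! ### The weights -/

lemma XX_eq (p s : ℝ) : XX p s = ENNReal.ofReal (2 ^ (-((1 - s) * p))) := by
  unfold XX
  rw [← ENNReal.ofReal_rpow_of_pos (by norm_num)]
  norm_num

lemma one_sub_XX (p s : ℝ) : 1 - XX p s = ENNReal.ofReal (1 - 2 ^ (-((1 - s) * p))) := by
  rw [XX_eq, ENNReal.ofReal_sub _ (by positivity), ENNReal.ofReal_one]

lemma weight_lower (p : ℝ) (s : ℝ) (hs : 0 ≤ s) (hs1 : s ≤ 1) :
    ENNReal.ofReal ((1 - s) * (1 - 2 ^ (-p))) ≤ 1 - XX p s := by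
  rw [one_sub_XX]
  apply ENNReal.ofReal_le_ofReal
  have h1 := rpow_one_add_le_one_add_mul_self (s := (2:ℝ) ^ (-p) - 1)
    (by have : (0:ℝ) < 2 ^ (-p) := by positivity
        linarith) (p := 1 - s) (by linarith) (by linarith)
  rw [add_sub_cancel, ← Real.rpow_mul (by norm_num)] at h1
  have h2 : -p * (1 - s) = -((1 - s) * p) := by ring
  rw [h2] at h1
  nlinarith

lemma weight_upper (p : ℝ) (hp : 1 ≤ p) (t : ℝ) (ht1 : t ≤ 1) :
    1 - XX p t ≤ ENNReal.ofReal ((1 - t) * p) := by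
  rw [one_sub_XX]
  apply ENNReal.ofReal_le_ofReal
  set v : ℝ := (1 - t) * p with hv
  have hv0 : 0 ≤ v := mul_nonneg (by linarith) (by linarith)
  have h1 : (2:ℝ) ^ (-v) = Real.exp (-v * Real.log 2) := by
    rw [Real.rpow_def_of_pos (by norm_num), mul_comm]
  rw [h1]
  have h2 := Real.add_one_le_exp (-v * Real.log 2)
  have h3 : Real.log 2 ≤ 1 := by
    have := Real.log_two_lt_d9
    linarith
  nlinarith

/-- **The inequality for the `p`-th powers.** -/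
lemma main_pow (p : ℝ) (hp : 1 ≤ p) (θ : ℝ) (hθ : 0 < θ) (s t : ℝ) (hs : θ < s) (hst : s < t)
    (ht : t < 1) (f : E → F) (hf : Measurable f) :
    ENNReal.ofReal (min s (1 - s)) * KK μ p f s ≤
      (2 ^ p * (ENNReal.ofReal (2 ^ ((Module.finrank ℝ E : ℝ) + p)) *
        ∫⁻ h : E, ENNReal.ofReal ((1 + ‖h‖) ^ (-((Module.finrank ℝ E : ℝ) + θ * p))) ∂μ)) *
        ∫⁻ x, ‖f x‖ₑ ^ p ∂μ +
      ENNReal.ofReal (p / ((1 - 2 ^ (-p)) * θ)) *
        (ENNReal.ofReal (min t (1 - t)) * KK μ p f t) := by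
  set J : ℝ≥0∞ := ∫⁻ h : E, ENNReal.ofReal ((1 + ‖h‖) ^ (-((Module.finrank ℝ E : ℝ) + θ * p))) ∂μ
  set M : ℝ≥0∞ := ∫⁻ x, ‖f x‖ₑ ^ p ∂μ
  have hκ : 0 < 1 - (2:ℝ) ^ (-p) := by
    have : (2:ℝ) ^ (-p) < 1 := Real.rpow_lt_one_of_one_lt_of_neg (by norm_num) (by linarith)
    linarith
  have h1 : ENNReal.ofReal (1 - s) * Sm μ p f s ≤
      ENNReal.ofReal (p / ((1 - 2 ^ (-p)) * θ)) *
        (ENNReal.ofReal (min t (1 - t)) * KK μ p f t) := by
    have e1 : ENNReal.ofReal (1 - s) = ENNReal.ofReal ((1 - 2 ^ (-p))⁻¹) *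
        ENNReal.ofReal ((1 - s) * (1 - 2 ^ (-p))) := by
      rw [← ENNReal.ofReal_mul (by positivity)]
      congr 1
      field_simp
    have e2 : ENNReal.ofReal ((1 - 2 ^ (-p))⁻¹) * ENNReal.ofReal ((1 - t) * p) ≤
        ENNReal.ofReal (p / ((1 - 2 ^ (-p)) * θ)) * ENNReal.ofReal (min t (1 - t)) := by
      rw [← ENNReal.ofReal_mul (by positivity), ← ENNReal.ofReal_mul (by positivity)]
      apply ENNReal.ofReal_le_ofReal
      have hm : θ * (1 - t) ≤ min t (1 - t) := by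
        apply le_min <;> nlinarith
      have hm2 : (1 - t) ≤ min t (1 - t) / θ := by
        rw [le_div_iff₀ hθ]; linarith
      calc (1 - (2:ℝ) ^ (-p))⁻¹ * ((1 - t) * p) = p / (1 - 2 ^ (-p)) * (1 - t) := by
            field_simp
        _ ≤ p / (1 - 2 ^ (-p)) * (min t (1 - t) / θ) :=
            mul_le_mul_of_nonneg_left hm2 (by positivity)
        _ = p / ((1 - 2 ^ (-p)) * θ) * min t (1 - t) := by
            field_simp
    calc ENNReal.ofReal (1 - s) * Sm μ p f s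
        = ENNReal.ofReal ((1 - 2 ^ (-p))⁻¹) *
          (ENNReal.ofReal ((1 - s) * (1 - 2 ^ (-p))) * Sm μ p f s) := by rw [e1]; ring
      _ ≤ ENNReal.ofReal ((1 - 2 ^ (-p))⁻¹) * ((1 - XX p s) * Sm μ p f s) := by
          gcongr
          exact weight_lower p s (by linarith) (by linarith)
      _ ≤ ENNReal.ofReal ((1 - 2 ^ (-p))⁻¹) * ((1 - XX p t) * Sm μ p f t) := by
          exact mul_le_mul' le_rfl (Sm_le μ p hp f hf s t hst.le ht)
      _ ≤ ENNReal.ofReal ((1 - 2 ^ (-p))⁻¹) * (ENNReal.ofReal ((1 - t) * p) * KK μ p f t) := by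
          gcongr
          · exact weight_upper p hp t ht.le
          · exact Sm_le_KK μ p f t
      _ = (ENNReal.ofReal ((1 - 2 ^ (-p))⁻¹) * ENNReal.ofReal ((1 - t) * p)) * KK μ p f t := by
          ring
      _ ≤ (ENNReal.ofReal (p / ((1 - 2 ^ (-p)) * θ)) * ENNReal.ofReal (min t (1 - t))) *
          KK μ p f t := by gcongr
      _ = _ := by ring
  calc ENNReal.ofReal (min s (1 - s)) * KK μ p f s
      ≤ ENNReal.ofReal (1 - s) * KK μ p f s := by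
        gcongr
        exact min_le_right _ _
    _ ≤ ENNReal.ofReal (1 - s) * (Sm μ p f s + (2 ^ p * M) *
        (ENNReal.ofReal (2 ^ ((Module.finrank ℝ E : ℝ) + p)) * J)) := by
        gcongr
        exact KK_le μ p hp θ s hθ hs (by linarith) f hf
    _ = ENNReal.ofReal (1 - s) * Sm μ p f s + ENNReal.ofReal (1 - s) * ((2 ^ p * M) *
        (ENNReal.ofReal (2 ^ ((Module.finrank ℝ E : ℝ) + p)) * J)) := by ring
    _ ≤ ENNReal.ofReal (p / ((1 - 2 ^ (-p)) * θ)) *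
        (ENNReal.ofReal (min t (1 - t)) * KK μ p f t) + 1 * ((2 ^ p * M) *
        (ENNReal.ofReal (2 ^ ((Module.finrank ℝ E : ℝ) + p)) * J)) := by
        gcongr
        exact ENNReal.ofReal_le_one.2 (by linarith)
    _ = _ := by ring

end Main

/-- The Gagliardo seminorm `(∫∫ |f(x) - f(y)|^p / |x - y|^{N+sp} dy dx)^{1/p}`, with values in
`[0, ∞]`. -/
noncomputable def gagliardo (N : ℕ) (p s : ℝ) (f : EuclideanSpace ℝ (Fin N) → ℂ) : ℝ≥0∞ :=
  (∫⁻ x, ∫⁻ y, ‖f x - f y‖ₑ ^ p / ‖x - y‖ₑ ^ ((N : ℝ) + s * p)) ^ (1 / p)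

/-- **Uniform comparison of Gagliardo seminorms.** For every dimension `N`, every `1 ≤ p < ∞` and
every `0 < θ < 1` there is a constant `C > 0` such that for all `θ < s < t < 1` and all measurable
`f : ℝ^N → ℂ` (in particular for all Schwartz functions)
`min{s,1-s}^{1/p} [f]_{s,p} ≤ C (‖f‖_p + min{t,1-t}^{1/p} [f]_{t,p})`. -/
theorem result (N : ℕ) (p : ℝ) (hp : 1 ≤ p) (θ : ℝ) (hθ : 0 < θ) (hθ1 : θ < 1) :
    ∃ C : ℝ, 0 < C ∧ ∀ s t : ℝ, θ < s → s < t → t < 1 →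
      ∀ f : EuclideanSpace ℝ (Fin N) → ℂ, Measurable f →
        ENNReal.ofReal ((min s (1 - s)) ^ (1 / p)) * gagliardo N p s f ≤
          ENNReal.ofReal C * (eLpNorm f (ENNReal.ofReal p) volume +
            ENNReal.ofReal ((min t (1 - t)) ^ (1 / p)) * gagliardo N p t f) := by
  have hp0 : 0 < p := by linarith
  have hfin : Module.finrank ℝ (EuclideanSpace ℝ (Fin N)) = N := finrank_euclideanSpace_fin
  set J : ℝ≥0∞ := ∫⁻ h : EuclideanSpace ℝ (Fin N),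
    ENNReal.ofReal ((1 + ‖h‖) ^ (-((Module.finrank ℝ (EuclideanSpace ℝ (Fin N)) : ℝ) + θ * p))) with hJ
  have hJt : J < ⊤ := by
    apply finite_integral_one_add_norm
    nlinarith
  set A : ℝ≥0∞ := (2 ^ p * (ENNReal.ofReal
    (2 ^ ((Module.finrank ℝ (EuclideanSpace ℝ (Fin N)) : ℝ) + p)) * J)) with hA
  have hAt : A < ⊤ := by
    apply ENNReal.mul_lt_top
    · exact ENNReal.rpow_lt_top_of_nonneg hp0.le ofNat_ne_top
    · exact ENNReal.mul_lt_top ENNReal.ofReal_lt_top hJt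
  set B : ℝ≥0∞ := ENNReal.ofReal (p / ((1 - 2 ^ (-p)) * θ)) with hB
  have hBt : B < ⊤ := ENNReal.ofReal_lt_top
  set D : ℝ≥0∞ := A ^ (1 / p) + B ^ (1 / p) with hD
  have h1p : 0 ≤ 1 / p := by positivity
  have hDt : D < ⊤ := ENNReal.add_lt_top.2 ⟨ENNReal.rpow_lt_top_of_nonneg h1p hAt.ne,
    ENNReal.rpow_lt_top_of_nonneg h1p hBt.ne⟩
  refine ⟨D.toReal + 1, by positivity, ?_⟩
  intro s t hs hst ht f hf
  have hDle : D ≤ ENNReal.ofReal (D.toReal + 1) := by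
    calc D = ENNReal.ofReal D.toReal := (ENNReal.ofReal_toReal hDt.ne).symm
      _ ≤ _ := ENNReal.ofReal_le_ofReal (by linarith)
  have hgag : ∀ s, gagliardo N p s f = (KK volume p f s) ^ (1 / p) := by
    intro s
    unfold gagliardo KK
    rw [double_eq volume p _ f hf, hfin]
  have hmin : ∀ s, 0 < s → s < 1 → ENNReal.ofReal ((min s (1 - s)) ^ (1 / p)) =
      (ENNReal.ofReal (min s (1 - s))) ^ (1 / p) := by
    intro s h1 h2
    rw [ENNReal.ofReal_rpow_of_nonneg (le_min h1.le (by linarith)) h1p]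
  have hmain := main_pow volume p hp θ hθ s t hs hst ht f hf
  rw [← hJ, ← hA, ← hB] at hmain
  have hL : eLpNorm f (ENNReal.ofReal p) volume = (∫⁻ x, ‖f x‖ₑ ^ p) ^ (1 / p) := by
    rw [eLpNorm_eq_lintegral_rpow_enorm_toReal (by simpa using hp0) ENNReal.ofReal_ne_top,
      ENNReal.toReal_ofReal hp0.le]
  rw [hgag, hgag, hmin s (by linarith) (by linarith), hmin t (by linarith) ht, hL,
    ← ENNReal.mul_rpow_of_nonneg _ _ h1p, ← ENNReal.mul_rpow_of_nonneg _ _ h1p]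
  calc (ENNReal.ofReal (min s (1 - s)) * KK volume p f s) ^ (1 / p)
      ≤ ((A * ∫⁻ x, ‖f x‖ₑ ^ p) + B * (ENNReal.ofReal (min t (1 - t)) * KK volume p f t)) ^ (1 / p) :=
        ENNReal.rpow_le_rpow hmain h1p
    _ ≤ (A * ∫⁻ x, ‖f x‖ₑ ^ p) ^ (1 / p) +
        (B * (ENNReal.ofReal (min t (1 - t)) * KK volume p f t)) ^ (1 / p) :=
        ENNReal.rpow_add_le_add_rpow _ _ h1p (by rw [div_le_one hp0]; exact hp)
    _ = A ^ (1 / p) * (∫⁻ x, ‖f x‖ₑ ^ p) ^ (1 / p) +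
        B ^ (1 / p) * (ENNReal.ofReal (min t (1 - t)) * KK volume p f t) ^ (1 / p) := by
        rw [ENNReal.mul_rpow_of_nonneg _ _ h1p, ENNReal.mul_rpow_of_nonneg B _ h1p]
    _ ≤ D * (∫⁻ x, ‖f x‖ₑ ^ p) ^ (1 / p) +
        D * (ENNReal.ofReal (min t (1 - t)) * KK volume p f t) ^ (1 / p) := by
        gcongr
        · exact le_self_add
        · exact le_add_self
    _ = D * ((∫⁻ x, ‖f x‖ₑ ^ p) ^ (1 / p) +
        (ENNReal.ofReal (min t (1 - t)) * KK volume p f t) ^ (1 / p)) := by ring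
    _ ≤ _ := by gcongr

end Pool.Agent.Results.MP_95ea62_an.UniformComparison
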